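import Pool.Agent.V5helper25.QC.Map

/-!
# Finitude of attractors near the maps which permute the orbits of an arbitrary circle action

Author: helper25, on top of the theorem on mode-locked rotations of helper525 (`TH525/PF`).

`V n = ℝⁿ`, `DiffM n N r = Diff^r(N)` with the `C^r` topology `strongTop n N r`
(`Pool/Agent/H718R2/G0.lean`). `omegaLim`, `IsAttractor`, `FiniteAttractors` (finitely many attractors
cover the space up to a null set): `Pool/Agent/H728R2/FA/Defs.lean`.
`IsFlow n N ψ` (`Pool/Agent/TH290/CL/Flow.lean`): `ψ` is a smooth action of `ℝ` on `N`.
`OrbitMap F ψ π f` (`Pool/Agent/N813/CX/Defs.lean`): `π : N → B` is a continuous surjective map whose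
fibres are the orbits of `ψ`, and `f : B → B` is induced by `F`.
`Rt F ψ s = ψ_s ∘ F` (`Pool/Agent/V5helper25/TK/Base.lean`).

`CircleMap n N F ψ A` (`Pool/Agent/V5helper25/CA/MainD.lean`): `ψ` is any smooth action of the circle
`ℝ / ℤ` on `N` (fixed points and exceptional orbits are allowed), and `F` maps the orbits of `ψ` to
orbits, with derivative `A` along the orbits: `F (ψ_t y) = ψ_(a(t)) (F y)`, `a(t) = ∫_0^t A(ψ_u y) du`;
`A : N → ℝ` is continuous and positive, with mean `1` over the circle.

In `Pool/Agent/V5helper25/QC/Map.lean`:
* `AsyMap n F ψ A z v`: the points `z`, `v` of `N` are exponentially asymptotic for the map `F` (for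
  closed `N`: `dist (F^k z, F^k v) ≤ C l^k` with `l < 1` for a Riemannian metric), and `A` is
  exponentially close along the orbits of `ψ` through them (which follows if `A` is of class `C^1`);
* `AsyMapBase n F ψ A π f μ m`: the hypothesis on the base.

The hypothesis on the base `B`, the space of the orbits of `ψ`: there are finitely many ergodic
probability measures `m_i` of `f` such that over almost every point of `B` there is a point
exponentially asymptotic for `F` to a point over a typical point of one of them. For instance it is
enough that the `m_i` have no common null sets other than those of the projection of `μ` (take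
`v = z`): `f` preserves a measure in the class of the projection of `μ` with finitely many ergodic
components.

The action need not be free. If the action is effective and `F` is a `C^r` diffeomorphism which permutes
its orbits and preserves their orientation, then the function `A` with the properties required in
`CircleMap` exists: away from the fixed points `A` is the factor in `DF(Z) = A Z ∘ F`, and `A` tends to
`1` at the fixed points, because `F` is differentiable there and a linear map which sends the orbits of
a linear circle action to orbits conjugates the action to itself (this remark is not used and not
proved in Lean). So the theorem covers, for instance, the diffeomorphisms of the spheres `S^n`,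
`n ≥ 2`, and of the complex projective spaces which permute the orbits of a linear circle action, and
the diffeomorphisms of Seifert manifolds which preserve the oriented fibres, when the map of the orbit
space is ergodic for a measure in the class of the volume. The hand-in `CircleExtAsymptotic` is about
free actions, where the hypothesis is about the closeness of the fibres only.

Method: that of `CircleExtAsymptotic`. The action is only used through the extended system
`(y, t) ↦ (F y, a_y(t))` over `(N, ν)`, where `ν` is an ergodic lift of one of the measures, which is
defined for all actions; over a fixed point its fibre circle does not embed in `N`, which is harmless.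
-/

set_option autoImplicit false

open scoped Manifold ContDiff Topology
open MeasureTheory Filter Set

universe u v

namespace Pool.Agent.Results.MP_3a2b62_an.CircleActions

open Pool.Agent.H718R2.G Pool.Agent.TH290.CL Pool.Agent.W564.SC Pool.Agent.N813.CX
  Pool.Agent.H728R2.FA Pool.Agent.V5helper25.TK Pool.Agent.V5helper25.CA Pool.Agent.V5helper25.QC

/-- Let `N` be a closed manifold, `1 ≤ r ≤ ∞`, and let `ψ` be a smooth action of the circle `ℝ / ℤ` on
`N`, with fixed points and exceptional orbits allowed. Let `F ∈ Diff^r(N)` permute the orbits of `ψ`,
with continuous positive derivative `A` along the orbits. Let `B` be the space of the orbits and `f` the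
map of `B` induced by `F`. Let `μ` be a finite measure on `N` whose null sets are invariant under `ψ`
(for instance the volume of a Riemannian metric), and suppose that there are finitely many ergodic
invariant probability measures `m i` of `f` such that for every measurable set `E ⊆ B` of full measure
for all `m i`, almost every point of `B`, for the projection of `μ`, is the projection of a point `z`
which is exponentially asymptotic for `F` (and `A`) to a point `v` with `π v ∈ E` (for instance: the
projection of `μ` is absolutely continuous with respect to the sum of the `m i`, with `v = z`). Then
`ψ_s ∘ F` has finitely many attractors covering `N` (up to a `μ`-null set) for a residual set of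
`s ∈ ℝ`. In particular every neighbourhood of `F` in `Diff^r(N)` contains `G = ψ_s ∘ F`, which is of the
same kind and has finitely many attractors covering `N`. -/
theorem result {n : ℕ} {N : Type u} [TopologicalSpace N] [T2Space N] [CompactSpace N]
    [ChartedSpace (V n) N] [IsManifold (𝓡 n) ∞ N] [MeasurableSpace N] [BorelSpace N] (r : ℕ∞)
    (hr : 1 ≤ r) (F : DiffM n N r) (ψ : ℝ → N → N) (A : N → ℝ) (h : CircleMap n N F ψ A)
    (B : Type v) [MetricSpace B] [MeasurableSpace B] [BorelSpace B] (π : N → B) (f : B → B)
    (μ : Measure N) [IsFiniteMeasure μ] (k : ℕ) (m : Fin k → Measure B)
    (hB : AsyMapBase n F ψ A π f μ m) :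
    (∀ᶠ s in residual ℝ, FiniteAttractors μ (Rt F ψ s)) ∧
    ∀ U : Set (DiffM n N r), IsOpen[strongTop n N r] U → F ∈ U →
      ∃ G ∈ U, CircleMap n N G ψ A ∧ OrbitMap G ψ π f ∧ (∃ s, ∀ y, G y = ψ s (F y)) ∧
        FiniteAttractors μ G :=
  mainM hr F ψ A h hB

end Pool.Agent.Results.MP_3a2b62_an.CircleActions
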