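import Pool.Agent.V5helper25.QA.MainA

/-!
# Finitude of attractors near circle extensions: a residual set of rotations

Author: helper25, on top of the theorem on mode-locked rotations of helper525 (`TH525/PF`).

`V n = ℝⁿ`, `DiffM n N r = Diff^r(N)` with the `C^r` topology `strongTop n N r`
(`Pool/Agent/H718R2/G0.lean`). `omegaLim`, `IsAttractor`, `FiniteAttractors` (finitely many attractors
cover the space up to a null set): `Pool/Agent/H728R2/FA/Defs.lean`.

In `Pool/Agent/N813/CX/Defs.lean`:
* `CircleExt n N F ψ`: `ψ` is a smooth free action of the circle `ℝ / ℤ` on `N` (a smooth flow with
  `ψ_t y = y` if and only if `t` is an integer), and `F` maps the orbits of `ψ` to orbits, preserving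
  the orientation: `F (ψ_t y) = ψ_(a(t)) (F y)`, with increasing `a`, which depends on `y`. The fibre
  maps are arbitrary otherwise (they need not commute with the action, and no domination is assumed);
* `OrbitMap F ψ π f`: `π : N → B` is a continuous surjective map whose fibres are the orbits of `ψ`,
  and `f : B → B` is the map induced by `F`.

`Rt F ψ s = ψ_s ∘ F` (`Pool/Agent/V5helper25/TK/Base.lean`). In `Pool/Agent/V5helper25/QA/MainA.lean`:
* `ExpClose n x w`: the sequences `x_k`, `w_k` of points of `N` are exponentially close,
  `|g (x_k) - g (w_k)| ≤ C l^k` with `l < 1` for every smooth function `g` on `N` (for closed `N`: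
  `dist (x_k, w_k) ≤ C l^k` for a Riemannian metric);
* `ExpAsy n π f p y`: the fibres of `π` over `f^k(p)` and `f^k(y)` contain exponentially close points
  (if `π` is a smooth bundle: `dist (f^k(p), f^k(y)) ≤ C l^k` for some `C` and `l < 1`).

The hypothesis on the base. There are finitely many ergodic probability measures `m_i` of `f` such
that almost every point `p` of the base (for the projection of `μ`) is exponentially asymptotic to a
typical point `y` of one of the `m_i`: for every measurable set `E` of full measure for all the `m_i`,
almost every `p` is exponentially asymptotic to a point of `E`. Two cases (with `μ` a volume; the facts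
on hyperbolic dynamics quoted here are not proved in Lean and not used):
* `f` preserves a measure with the null sets of a volume and has finitely many ergodic components
  (take `y = p`), for instance `f` is ergodic for a smooth volume;
* `f` is an Axiom A diffeomorphism of class `C²`, with the SRB measures `m_i` of its attractors: almost
  every point is in the basin of an attractor, and the stable manifolds of the points of `E` fill the
  basin up to a null set, because the stable foliation is absolutely continuous (Bowen, Ruelle). More
  generally, `f` may have finitely many (non-uniformly) hyperbolic SRB measures such that the stable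
  manifolds of their typical points cover almost everything.

Method. Let `m` be one of the measures. (1) Let `s < s'` be parameters such that the orbits of
`ψ_s ∘ F` and `ψ_(s') ∘ F` over `m`-almost every point of the base stay at bounded distance (on the
universal cover of the fibres). Over the system `(N, ψ_s ∘ F, ν)`, `ν` any ergodic lift of `m`, there
are finitely many contracted measurable graphs for all parameters in `[s, s']` outside a null set
(the theorem of `TH525/PF`), which is shown to be closed, hence nowhere dense. Over a point `p` which
is exponentially asymptotic to an `m`-typical point `y` the fibre maps differ from those over `y` by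
exponentially small errors; the contraction of the graphs over `y` is uniform enough (Pliss times) to
absorb the errors, so that the orbits of all points of the fibre over `p`, up to countably many
exceptional ones, converge to the supports of the graphs. (2) If there are no such `s < s'` in an
open interval `I`, then over `m`-almost every point `x` the orbits of `ψ_s ∘ F` and `ψ_(s') ∘ F` drift
apart by more than one turn for all `s < s'` in `I`; so for every point `q` over `x` and every open
set `W` over the support of `m` there is a parameter between `s` and `s'` for which the orbit of `q`
enters `W`. By Baire's theorem the orbit of `q` is dense over the support of `m` for a residual set of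
parameters in `I`.
-/

set_option autoImplicit false

open scoped Manifold ContDiff Topology
open MeasureTheory Filter Set

universe u v

namespace Pool.Agent.Results.MP_3a2b62_an.CircleExtAsymptotic

open Pool.Agent.H718R2.G Pool.Agent.W564.SC Pool.Agent.N813.CX Pool.Agent.V5helper25.TK
  Pool.Agent.H728R2.FA Pool.Agent.V5helper25.QA

/-- Let `N` be a closed manifold, `1 ≤ r ≤ ∞`, and let `F ∈ Diff^r(N)` permute the orbits of a smooth
free action `ψ` of the circle `ℝ / ℤ`, preserving their orientation. Let `f : B → B` be the map of the
space `B` of the orbits induced by `F`. Let `μ` be a finite measure on `N` whose null sets are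
invariant under `ψ` (for instance the volume of a Riemannian metric). Suppose that there are finitely
many ergodic invariant probability measures `m i` of `f` such that for every measurable set `E ⊆ B` of
full measure for all the `m i`, almost every point of `B`, for the projection of `μ`, is exponentially
asymptotic to a point of `E`. Then `ψ_s ∘ F` has finitely many attractors covering `N` (up to a
`μ`-null set) for a residual set of `s ∈ ℝ`. In particular every neighbourhood of `F` in `Diff^r(N)`
contains `G = ψ_s ∘ F`, which is of the same kind (with the same `ψ` and `f`) and has finitely many
attractors covering `N`. -/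
theorem result {n : ℕ} {N : Type u} [TopologicalSpace N] [T2Space N] [CompactSpace N]
    [ChartedSpace (V n) N] [IsManifold (𝓡 n) ∞ N] [MeasurableSpace N] [BorelSpace N] (r : ℕ∞)
    (hr : 1 ≤ r) (F : DiffM n N r) (ψ : ℝ → N → N) (h : CircleExt n N F ψ)
    (B : Type v) [MetricSpace B] [MeasurableSpace B] [BorelSpace B] (π : N → B) (f : B → B)
    (hπ : OrbitMap F ψ π f) (μ : Measure N) [IsFiniteMeasure μ] (hμ : ∀ t, μ.map (ψ t) ≪ μ)
    (k : ℕ) (m : Fin k → Measure B) (hm : ∀ i, IsProbabilityMeasure (m i))
    (erg : ∀ i, Ergodic f (m i))
    (hb : ∀ E : Set B, MeasurableSet E → (∀ i, m i Eᶜ = 0) →
      ∀ᵐ p ∂(μ.map π), ∃ y ∈ E, ExpAsy n π f p y) :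
    (∀ᶠ s in residual ℝ, FiniteAttractors μ (Rt F ψ s)) ∧
    ∀ U : Set (DiffM n N r), IsOpen[strongTop n N r] U → F ∈ U →
      ∃ G ∈ U, CircleExt n N G ψ ∧ OrbitMap G ψ π f ∧ (∃ s, ∀ y, G y = ψ s (F y)) ∧
        FiniteAttractors μ G :=
  mainA hr F ψ h B π f hπ μ hμ hm erg hb

end Pool.Agent.Results.MP_3a2b62_an.CircleExtAsymptotic
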