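import Pool.Agent.V5helper25.QC.Stm

/-!
# Finitude of attractors near vector fields which project along an arbitrary circle action

Author: helper25, on top of the theorem on mode-locked rotations of helper525 (`TH525/PF`).

`V n = ℝⁿ`. `IsFlow n N ψ` (`Pool/Agent/TH290/CL/Flow.lean`): `ψ` is a smooth action of `ℝ` on `N`.
In `Pool/Agent/V5helper25/PB`:
* `FDef.lean`: `FlowOn N φ` (continuous flow), `omegaF`, `IsAttractorF`, `FiniteAttractorsF μ Φ` (the
  flow `Φ` has finitely many attractors covering the space up to a `μ`-null set; as in the problem);
* `Man.lean`: `OrbitFlow φ ψ π β`: `π : N → B` is a continuous surjective map whose fibres are the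
  orbits of `ψ`, and `β` is the flow on `B` induced by `φ`;
* `PS.lean`: `ErgFlow β m`: the measure `m` is invariant under the flow `β` and ergodic;
* `Stm.lean`: a vector field is a map `X : N → V n` (`V n` is the tangent space of `N` at `y` in
  Mathlib); `FieldR r X`: `X` is of class `C^r`; `FlowOf X Φ`: `Φ` is a continuous flow whose orbits
  are integral curves of `X`; `InvField r ψ Y φ` (the hypothesis on `Y` and its flow `φ`);
  `fieldS Y Z g s`, the field `Y + (g + s) Z`.

`CircleField r ψ Z` (`Pool/Agent/V5helper25/CA/Stm.lean`): `ψ` is any smooth action of the circle
`ℝ / ℤ`, with fixed points and exceptional orbits allowed, generated by the `C^r` field `Z`.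

In `Pool/Agent/V5helper25/QC/Stm.lean`:
* `AsyPt n φ z v`: the points `z`, `v` of `N` are exponentially asymptotic for the flow `φ`,
  `|g (φ_t z) - g (φ_t v)| ≤ C exp(-l t)` with `l > 0` for every smooth function `g` on `N` (for closed
  `N`: `dist (φ_t z, φ_t v) ≤ C exp(-l t)` for a Riemannian metric);
* `AsyField n φ ψ π β μ m`: the hypothesis on the base.

The hypothesis on the base `B`, the space of the orbits of `ψ`: there are finitely many ergodic
probability measures `m_i` of the flow `β` such that over almost every point of `B` there is a point
whose `φ`-orbit is exponentially asymptotic to the `φ`-orbit of a point over a typical point of one of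
them. It holds for instance (with `μ` a volume; the facts quoted here are not proved in Lean and not
used)
* for all actions, if `β` preserves a measure with the null sets of a volume and has finitely many
  ergodic components (take `v = z`);
* for free actions, if `β` is an Axiom A flow without cycles of class `C²`, in particular a
  Morse-Smale flow, with the SRB measures `m_i` of its attractors (Bowen, Ruelle), because the strong
  stable manifolds of the points of a set of full measure fill the basin up to a null set, and they
  lift to stable manifolds of `φ`. So if `B` is an orientable closed surface (`N` is a 3-manifold),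
  all `C^r` fields which project to `B` are limits of such fields with finitely many attractors
  covering `N`, by Peixoto's theorem for `B`;
* for all actions, if almost every orbit of `φ` is exponentially asymptotic to an orbit of `φ` over one
  of finitely many equilibria of `β`.

For free actions the fields `Y + g Z` of the theorem are exactly the fields of class `C^r` on `N` which
project to fields on `B`.

For free actions it is enough that the fibres over `β_t(p)` and `β_t(y)`, `y ∈ E`, contain exponentially
close points (`AsyBase` in `Pool/Agent/V5helper25/QA/MainFA.lean`; the implication is the lemma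
`asyField_of_free` in `Pool/Agent/V5helper25/QC/Free.lean`).

Method. For a suitable `τ > 0` (all but countably many, by an argument of Pugh and Shub) the time
`τ` map of `β` is ergodic for all `m i`. The time `τ` maps of the flows of `X + s Z` are extensions of
it, increasing in `s`; along exponentially asymptotic orbits of `φ` their action on the orbits of `ψ`
is exponentially close, by Gronwall's inequality. The extended system over `(N, ν)`, where `ν` is an
ergodic lift of one of the measures, is defined for all circle actions, and the nonuniform contraction
of its mode-locked parameters is stable under exponentially small perturbations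
(`V5helper25/QA`, `V5helper25/QC`).
-/

set_option autoImplicit false

open scoped Manifold ContDiff Topology
open MeasureTheory Filter Set

universe u v

namespace Pool.Agent.Results.MP_3a2b62_an.FieldsActions

open Pool.Agent.H718R2.G Pool.Agent.TH290.CL Pool.Agent.V5helper25.PB Pool.Agent.V5helper25.CA
  Pool.Agent.V5helper25.QC

/-- Let `N` be a closed manifold with a smooth action `ψ` of the circle `ℝ / ℤ`, fixed points and
exceptional orbits allowed, generated by the field `Z`, and let `1 ≤ r ≤ ∞`. Let `Y` be a `C^r` field on
`N` which is invariant under the action (its flow `φ` commutes with `ψ`), and let `g` be any `C^r`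
function on `N`. Let `β` be the flow on the space `B` of the orbits of `ψ` induced by `φ` (so by all
fields `Y + h Z`). Let `μ` be a finite measure on `N` whose null sets are invariant under `ψ` (for
instance the volume of a Riemannian metric), and suppose that there are finitely many ergodic invariant
probability measures `m i` of `β` such that for every measurable set `E ⊆ B` of full measure for all
`m i`, almost every point of `B`, for the projection of `μ`, is the projection of a point `z` which is
exponentially asymptotic for `φ` to a point `v` with `π v ∈ E` (for instance: the `m i` are absolutely
continuous with respect to the projection of `μ` and have no other common null sets, with `v = z`).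
Then the field `X + s Z`, with `X = Y + g Z`, is of class `C^r` and has a flow for every `s ∈ ℝ`, and for
a residual set of `s ∈ ℝ` this flow has finitely many attractors covering `N` (up to a `μ`-null set). In
particular `X` is a limit in `χ^r(N)` of such fields. -/
theorem result {n : ℕ} {N : Type u} [TopologicalSpace N] [T2Space N] [CompactSpace N]
    [ChartedSpace (V n) N] [IsManifold (𝓡 n) ∞ N] [MeasurableSpace N] [BorelSpace N]
    (r : ℕ∞) (hr : 1 ≤ r) (ψ : ℝ → N → N) (Z : N → V n) (hψ : CircleField r ψ Z)
    (Y : N → V n) (φ : ℝ → N → N) (hY : InvField r ψ Y φ)
    (g : N → ℝ) (hg : ContMDiff (𝓡 n) 𝓘(ℝ, ℝ) r g)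
    (B : Type v) [MetricSpace B] [MeasurableSpace B] [BorelSpace B] (π : N → B) (β : ℝ → B → B)
    (μ : Measure N) [IsFiniteMeasure μ] (k : ℕ) (m : Fin k → Measure B)
    (hB : AsyField n φ ψ π β μ m) :
    (∀ s : ℝ, FieldR r (fieldS Y Z g s) ∧ ∃ Φ, FlowOf (fieldS Y Z g s) Φ) ∧
    ∀ᶠ s in residual ℝ, ∀ Φ, FlowOf (fieldS Y Z g s) Φ → FiniteAttractorsF μ Φ :=
  thmQ hr Z Y φ g β hψ hY hg hB

end Pool.Agent.Results.MP_3a2b62_an.FieldsActions
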