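import Pool.Agent.V5helper21.FR.Lim

/-!
# Finitude of attractors near Hamiltonian fields (and all fields `A(dH)` with `A ≥ 0`)

Author: helper21. Flows of smooth fields and gradients: library of helper826 and team
(`H826R2/Wein`); critical points in charts: helper318 (`Y318/MN`); the definition of attractors of
flows: helper25 (`V5helper25/PB/FDef.lean`: `FlowOn`, `omegaF`, `IsAttractorF`, `FiniteAttractorsF`,
as in the problem).

`V n = ℝⁿ`; in Mathlib the tangent space of `N` at `x` is `V n`, so a vector field is a map
`X : N → V n` and a covector at `x` is `ξ : V n →L[ℝ] ℝ`. Definitions in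
`Pool/Agent/V5helper21/FR/Stm.lean`:
* `SmoothFun n h`, `SmoothField X` (with `coordF`, the coordinates in charts): smooth functions and
  vector fields; `dif n h x`: the differential of `h` at `x`; `BMap n N`: maps
  `A x : T*_x N → T_x N`; `fld A h = A(dh)`; `BundleMap A`: `A` is linear and smooth;
  `Nonneg A`, `Posit B`: `ξ(A ξ) ≥ 0` for all `ξ`, `ξ(B ξ) > 0` for all `ξ ≠ 0`;
* `Hc H e c = H + Σ c_j e_j`, `fric A B h ε = A(dh) + ε B(dh)`;
* `FlowOf X Φ`: `Φ` is a continuous flow whose orbits are integral curves of `X`; `Conv Φ`: finitely
  many stationary points, and every orbit converges to one of them; `FinAttr X`: `X` has a flow,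
  and its flow has `Conv` and finitely many attractors covering `N`, for every measure on `N`;
* `LimitOf D X` (in `Pool/Agent/V5helper21/FR/Lim.lean`): `X` belongs to the closure of the set of the
  smooth fields with the property `D`, for every vector space topology (`VecTop`) on the space
  `FieldSp n N` (`Fields n N` as a type) of the smooth fields (so for the `C^r` topology, all `r`).

Fields `A(dH)` with `ξ(A ξ) ≥ 0`: the Hamiltonian fields of all symplectic and Poisson structures on
`N`, all fields `A(dH)` with `A` skew, gradient fields for Riemannian metrics, and sums of such.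

Method. Almost every member `h` of the family `H + Σ c_j e_j` is a Morse function (Sard's theorem for
the gradient in a chart, and Fubini's theorem for the finitely many charts), so it has finitely many
critical points. Along the orbits of `A(dh) + ε B(dh)` the function `h` increases strictly outside
the critical points, which are stationary.
-/

set_option autoImplicit false

open scoped Manifold ContDiff Topology
open MeasureTheory Filter Set

universe u

namespace Pool.Agent.Results.MP_3a2b62_an.HamiltonianFields

open Pool.Agent.H718R2.G Pool.Agent.V5helper21.FR

/-- Let `N` be a closed manifold. (1) There are smooth bundle maps `B : T*N → TN` with `ξ(B ξ) > 0` for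
all `ξ ≠ 0`. (2) There are smooth functions `e_1, …, e_k` on `N` such that for every smooth function
`H` on `N` and almost every `c ∈ ℝ^k` the function `h = H + Σ c_j e_j` has the following property: for
all smooth bundle maps `A, B : T*N → TN` with `ξ(A ξ) ≥ 0` for all `ξ` and `ξ(B ξ) > 0` for all
`ξ ≠ 0`, and all `ε > 0`, the field `A(dh) + ε B(dh)` is smooth, every orbit of its flow converges to
one of finitely many stationary points, and the flow has finitely many attractors covering `N`, for
every measure on `N`. (3) So for every smooth bundle map `A : T*N → TN` with `ξ(A ξ) ≥ 0` and every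
smooth function `H` the field `A(dH)` is a limit of smooth fields with these properties, in every
vector space topology on the space of the smooth fields. This applies to every Hamiltonian vector
field of every symplectic or Poisson structure on `N`. -/
theorem result (n : ℕ) (N : Type u) [TopologicalSpace N] [T2Space N] [CompactSpace N]
    [ChartedSpace (V n) N] [IsManifold (𝓡 n) ∞ N] :
    (∃ B : BMap n N, BundleMap B ∧ Posit B) ∧
    (∃ (ι : Type) (_ : Fintype ι) (e : ι → N → ℝ), (∀ j, SmoothFun n (e j)) ∧
      ∀ H : N → ℝ, SmoothFun n H → ∀ᵐ c : ι → ℝ, ∀ A B : BMap n N,
        BundleMap A → BundleMap B → Nonneg A → Posit B → ∀ ε : ℝ, 0 < ε →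
          SmoothField (fric A B (Hc H e c) ε) ∧ FinAttr (fric A B (Hc H e c) ε)) ∧
    ∀ A : BMap n N, BundleMap A → Nonneg A → ∀ H : N → ℝ, SmoothFun n H →
      LimitOf FinAttr (fld A H) :=
  ⟨(main n N).1, (main n N).2, main2 n N⟩

end Pool.Agent.Results.MP_3a2b62_an.HamiltonianFields
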